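import Mathlib

/-!
# Nordhaus–Gaddum total domination bounds with `δ*(G) = 4`

Let `F k` be the disjoint union of `k` copies of the bipartite complement of the Heawood graph and
`G k` its complement. For `k ≥ 2` the graph `G k` is connected, has order `n = 14 k`,
`δ*(G k) = 4`, `γ_t(G k) = 2` and `γ_t` of its complement `F k` is `6 k = 3 n / 7`.
-/

set_option autoImplicit false

namespace Pool.Agent.Results.MP_4101c8_co.SevenSharp

open Finset

/-- The total domination number. -/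
noncomputable def totalDomNum {V : Type} (G : SimpleGraph V) : ℕ :=
  sInf {m : ℕ | ∃ S : Finset V, S.card = m ∧ ∀ v, ∃ u ∈ S, G.Adj v u}

open Classical in
/-- `δ*(G)`, the least of the minimum degrees of `G` and its complement. -/
noncomputable def deltaStar {V : Type} [Fintype V] (G : SimpleGraph V) : ℕ :=
  min G.minDegree Gᶜ.minDegree

/-- The vertices of `k` copies of the 14-vertex graph: copy, side, point. -/
abbrev VV (k : ℕ) : Type := Fin k × Bool × ZMod 7

/-- The differences. -/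
def DD (d : ZMod 7) : Prop := d ≠ 0 ∧ d ≠ 1 ∧ d ≠ 3

instance : DecidablePred DD := fun d => by unfold DD; infer_instance

/-- `k` copies of the bipartite complement of the Heawood graph. -/
def F (k : ℕ) : SimpleGraph (VV k) where
  Adj u v := u.1 = v.1 ∧
    ((u.2.1 = false ∧ v.2.1 = true ∧ DD (v.2.2 - u.2.2)) ∨
      (v.2.1 = false ∧ u.2.1 = true ∧ DD (u.2.2 - v.2.2)))
  symm := ⟨fun u v h => ⟨h.1.symm, h.2.symm⟩⟩
  loopless := ⟨fun u h => by
    rcases h.2 with ⟨h1, h2, -⟩ | ⟨h1, h2, -⟩ <;> rw [h1] at h2 <;> cases h2⟩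

lemma F_adj {k : ℕ} (u v : VV k) : (F k).Adj u v ↔ u.1 = v.1 ∧
    ((u.2.1 = false ∧ v.2.1 = true ∧ DD (v.2.2 - u.2.2)) ∨
      (v.2.1 = false ∧ u.2.1 = true ∧ DD (u.2.2 - v.2.2))) := Iff.rfl

lemma two_points : ∀ p q : ZMod 7, (∃ x : ZMod 7, ¬ DD (p - x) ∧ ¬ DD (q - x)) ∧
    ∃ x : ZMod 7, ¬ DD (x - p) ∧ ¬ DD (x - q) := by decide

lemma three_points : ∀ x : ZMod 7, (DD (0 - x) ∨ DD (1 - x) ∨ DD (2 - x)) ∧
    (DD (x - 0) ∨ DD (x - 1) ∨ DD (x - 2)) := by decide

/-- Each side of each copy contains at least three vertices of a total dominating set. -/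
lemma side {k : ℕ} (S : Finset (VV k)) (hS : ∀ v, ∃ u ∈ S, (F k).Adj v u) (i : Fin k) (b : Bool) :
    3 ≤ (S.filter fun u => u.1 = i ∧ u.2.1 = b).card := by
  classical
  by_contra hcon
  push Not at hcon
  set T := (S.filter fun u => u.1 = i ∧ u.2.1 = b).image fun u => u.2.2 with hT
  have hTc : T.card ≤ 2 := card_image_le.trans (by omega)
  obtain ⟨p, q, hpq⟩ : ∃ p q : ZMod 7, T ⊆ {p, q} := by
    rcases Nat.lt_or_ge T.card 2 with h | h
    · rcases Nat.lt_or_ge T.card 1 with h1 | h1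
      · have : T = ∅ := card_eq_zero.1 (by omega)
        exact ⟨0, 0, by rw [this]; exact empty_subset _⟩
      · obtain ⟨p, hp⟩ := card_eq_one.1 (by omega : T.card = 1)
        exact ⟨p, p, by rw [hp]; simp⟩
    · obtain ⟨p, q, -, hpq⟩ := card_eq_two.1 (by omega : T.card = 2)
      exact ⟨p, q, by rw [hpq]⟩
  obtain ⟨⟨x, hx1, hx2⟩, ⟨y, hy1, hy2⟩⟩ := two_points p q
  have hmem : ∀ u ∈ S, u.1 = i → u.2.1 = b → u.2.2 = p ∨ u.2.2 = q := by
    intro u hu h1 h2
    have : u.2.2 ∈ T := mem_image.2 ⟨u, mem_filter.2 ⟨hu, h1, h2⟩, rfl⟩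
    simpa using hpq this
  cases b with
  | true =>
    obtain ⟨u, hu, h⟩ := hS (i, false, x)
    rw [F_adj] at h
    obtain ⟨h1, h | h⟩ := h
    · rcases hmem u hu h1.symm h.2.1 with h3 | h3
      · exact hx1 (by rw [← h3]; exact h.2.2)
      · exact hx2 (by rw [← h3]; exact h.2.2)
    · exact absurd h.2.1 (by simp)
  | false =>
    obtain ⟨u, hu, h⟩ := hS (i, true, y)
    rw [F_adj] at h
    obtain ⟨h1, h | h⟩ := h
    · exact absurd h.1 (by simp)
    · rcases hmem u hu h1.symm h.1 with h3 | h3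
      · exact hy1 (by rw [← h3]; exact h.2.2)
      · exact hy2 (by rw [← h3]; exact h.2.2)

lemma lower {k : ℕ} (S : Finset (VV k)) (hS : ∀ v, ∃ u ∈ S, (F k).Adj v u) : 6 * k ≤ S.card := by
  classical
  have h1 : S.card = ∑ p : Fin k × Bool, (S.filter fun u => (u.1, u.2.1) = p).card :=
    card_eq_sum_card_fiberwise (fun u _ => mem_coe.2 (mem_univ _))
  rw [h1]
  calc 6 * k = ∑ _p : Fin k × Bool, 3 := by
        rw [sum_const, card_univ, Fintype.card_prod, Fintype.card_fin, Fintype.card_bool,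
          smul_eq_mul]
        ring
    _ ≤ _ := by
        apply sum_le_sum
        rintro ⟨i, b⟩ _
        have h2 := side S hS i b
        have h3 : (S.filter fun u => u.1 = i ∧ u.2.1 = b) =
            S.filter fun u => (u.1, u.2.1) = (i, b) :=
          filter_congr fun u _ => by rw [Prod.mk.injEq]
        rw [← h3]
        exact h2

lemma upper (k : ℕ) : ∃ S : Finset (VV k), S.card = 6 * k ∧ ∀ v, ∃ u ∈ S, (F k).Adj v u := by
  classical
  refine ⟨(univ : Finset (Fin k)) ×ˢ ((univ : Finset Bool) ×ˢ ({0, 1, 2} : Finset (ZMod 7))),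
    ?_, ?_⟩
  · rw [card_product, card_product, card_univ, card_univ, Fintype.card_fin, Fintype.card_bool,
      show ({0, 1, 2} : Finset (ZMod 7)).card = 3 by decide]
    ring
  · rintro ⟨i, b, x⟩
    obtain ⟨h1, h2⟩ := three_points x
    cases b with
    | false =>
      rcases h1 with h | h | h
      · exact ⟨(i, true, 0), by simp, rfl, Or.inl ⟨rfl, rfl, h⟩⟩
      · exact ⟨(i, true, 1), by simp, rfl, Or.inl ⟨rfl, rfl, h⟩⟩
      · exact ⟨(i, true, 2), by simp, rfl, Or.inl ⟨rfl, rfl, h⟩⟩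
    | true =>
      rcases h2 with h | h | h
      · exact ⟨(i, false, 0), by simp, rfl, Or.inr ⟨rfl, rfl, h⟩⟩
      · exact ⟨(i, false, 1), by simp, rfl, Or.inr ⟨rfl, rfl, h⟩⟩
      · exact ⟨(i, false, 2), by simp, rfl, Or.inr ⟨rfl, rfl, h⟩⟩

theorem totalDomNum_F (k : ℕ) : totalDomNum (F k) = 6 * k := by
  apply le_antisymm
  · obtain ⟨S, h1, h2⟩ := upper k
    have h3 : 6 * k ∈ {m : ℕ | ∃ S : Finset (VV k), S.card = m ∧ ∀ v, ∃ u ∈ S, (F k).Adj v u} :=
      ⟨S, h1, h2⟩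
    exact Nat.sInf_le h3
  · obtain ⟨S0, h1, h2⟩ := upper k
    have hne : {m : ℕ | ∃ S : Finset (VV k), S.card = m ∧ ∀ v, ∃ u ∈ S, (F k).Adj v u}.Nonempty :=
      ⟨_, S0, rfl, h2⟩
    obtain ⟨S, h3, h4⟩ := Nat.sInf_mem hne
    have h5 := lower S h4
    rw [h3] at h5
    exact h5

/-- Vertices in different copies are adjacent in the complement. -/
lemma compl_adj {k : ℕ} (u v : VV k) (h : u.1 ≠ v.1) : (F k)ᶜ.Adj u v := by
  rw [SimpleGraph.compl_adj]
  exact ⟨fun h1 => h (by rw [h1]), fun h1 => h h1.1⟩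

theorem totalDomNum_compl (k : ℕ) (hk : 2 ≤ k) : totalDomNum (F k)ᶜ = 2 := by
  classical
  set i : Fin k := ⟨0, by omega⟩
  set j : Fin k := ⟨1, by omega⟩
  have hij : i ≠ j := by simp [i, j]
  have hmem : 2 ∈ {m : ℕ | ∃ S : Finset (VV k), S.card = m ∧ ∀ v, ∃ u ∈ S, (F k)ᶜ.Adj v u} := by
    refine ⟨{(i, false, 0), (j, false, 0)}, card_pair (fun h => hij (by
      have := congrArg Prod.fst h
      exact this)), ?_⟩
    intro v
    by_cases h : v.1 = i
    · exact ⟨(j, false, 0), by simp, compl_adj _ _ (by rw [h]; exact hij)⟩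
    · exact ⟨(i, false, 0), by simp, compl_adj _ _ h⟩
  apply le_antisymm (Nat.sInf_le hmem)
  have hne : {m : ℕ | ∃ S : Finset (VV k), S.card = m ∧ ∀ v, ∃ u ∈ S, (F k)ᶜ.Adj v u}.Nonempty :=
    ⟨_, hmem⟩
  obtain ⟨S, h3, h4⟩ := Nat.sInf_mem hne
  have h5 : 2 ≤ S.card := by
    obtain ⟨u, hu, -⟩ := h4 (i, false, 0)
    obtain ⟨w, hw, h6⟩ := h4 u
    exact one_lt_card.2 ⟨u, hu, w, hw, h6.ne⟩
  rw [h3] at h5
  exact h5

theorem connected_compl (k : ℕ) (hk : 2 ≤ k) : (F k)ᶜ.Connected := by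
  set i : Fin k := ⟨0, by omega⟩
  set j : Fin k := ⟨1, by omega⟩
  have hij : i ≠ j := by simp [i, j]
  have h0 : ∀ v : VV k, (F k)ᶜ.Reachable (i, false, 0) v := by
    intro v
    by_cases h : v.1 = i
    · have h1 : (F k)ᶜ.Adj (i, false, 0) (j, false, 0) := compl_adj _ _ hij
      have h2 : (F k)ᶜ.Adj (j, false, 0) v := compl_adj _ _ (by rw [h]; exact hij.symm)
      exact h1.reachable.trans h2.reachable
    · exact (compl_adj _ _ (fun h1 => h h1.symm)).reachable
  have hne : Nonempty (VV k) := ⟨(i, false, 0)⟩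
  exact ⟨fun u v => (h0 u).symm.trans (h0 v)⟩

lemma card_VV (k : ℕ) : Fintype.card (VV k) = 14 * k := by
  rw [Fintype.card_prod, Fintype.card_prod, Fintype.card_fin, Fintype.card_bool, ZMod.card]
  ring

lemma count_DD : ∀ x : ZMod 7, ((univ : Finset (ZMod 7)).filter fun y => DD (y - x)).card = 4 ∧
    ((univ : Finset (ZMod 7)).filter fun y => DD (x - y)).card = 4 := by decide

lemma degree_F (k : ℕ) (v : VV k) [Fintype ((F k).neighborSet v)] : (F k).degree v = 4 := by
  obtain ⟨i, b, x⟩ := v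
  obtain ⟨h1, h2⟩ := count_DD x
  rw [← SimpleGraph.card_neighborFinset_eq_degree]
  cases b with
  | false =>
    rw [← h1]
    symm
    refine card_bij (fun y _ => (i, true, y)) ?_ ?_ ?_
    · intro y hy
      rw [SimpleGraph.mem_neighborFinset]
      exact ⟨rfl, Or.inl ⟨rfl, rfl, (mem_filter.1 hy).2⟩⟩
    · intro y _ y' _ h
      simpa using h
    · rintro ⟨i', b', y⟩ hu
      rw [SimpleGraph.mem_neighborFinset, F_adj] at hu
      obtain ⟨h3, h | h⟩ := hu
      · simp only at h3 h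
        exact ⟨y, mem_filter.2 ⟨mem_univ _, h.2.2⟩, by rw [h3, h.2.1]⟩
      · exact absurd h.2.1 (by simp)
  | true =>
    rw [← h2]
    symm
    refine card_bij (fun y _ => (i, false, y)) ?_ ?_ ?_
    · intro y hy
      rw [SimpleGraph.mem_neighborFinset]
      exact ⟨rfl, Or.inr ⟨rfl, rfl, (mem_filter.1 hy).2⟩⟩
    · intro y _ y' _ h
      simpa using h
    · rintro ⟨i', b', y⟩ hu
      rw [SimpleGraph.mem_neighborFinset, F_adj] at hu
      obtain ⟨h3, h | h⟩ := hu
      · exact absurd h.1 (by simp)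
      · simp only at h3 h
        exact ⟨y, mem_filter.2 ⟨mem_univ _, h.2.2⟩, by rw [h3, h.1]⟩

theorem minDegree_F (k : ℕ) (hk : 2 ≤ k) (H : SimpleGraph (VV k)) (i : DecidableRel H.Adj)
    (hH : H = F k) : H.minDegree = 4 := by
  have hne : Nonempty (VV k) := ⟨(⟨0, by omega⟩, false, 0)⟩
  subst hH
  apply le_antisymm
  · rw [← degree_F k (⟨0, by omega⟩, false, 0)]
    exact SimpleGraph.minDegree_le_degree _ _
  · exact SimpleGraph.le_minDegree_of_forall_le_degree _ _ fun v => (degree_F k v).ge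

theorem minDegree_compl (k : ℕ) (hk : 2 ≤ k) (H : SimpleGraph (VV k)) (i : DecidableRel H.Adj)
    (hH : H = (F k)ᶜ) : 4 ≤ H.minDegree := by
  classical
  have hne : Nonempty (VV k) := ⟨(⟨0, by omega⟩, false, 0)⟩
  apply SimpleGraph.le_minDegree_of_forall_le_degree
  intro v
  have hHc : Hᶜ = F k := by rw [hH, compl_compl]
  have h1 : H.degree v + Hᶜ.degree v + 1 = 14 * k := by
    have h2 := SimpleGraph.degree_compl (G := H) v
    have h3 := H.degree_lt_card_verts v
    rw [card_VV] at h2 h3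
    omega
  have h4 : Hᶜ.degree v = 4 := by
    have h5 : ∀ (K : SimpleGraph (VV k)) (_ : Fintype (K.neighborSet v)), K = F k →
        K.degree v = 4 := by
      intro K _ hK
      subst hK
      exact degree_F k v
    exact h5 _ _ hHc
  omega

theorem deltaStar_compl (k : ℕ) (hk : 2 ≤ k) : deltaStar (F k)ᶜ = 4 := by
  have h1 := minDegree_F k hk ((F k)ᶜ)ᶜ (Classical.decRel _) (compl_compl _)
  have h2 := minDegree_compl k hk (F k)ᶜ (Classical.decRel _) rfl
  have h3 : ∀ (i : DecidableRel (F k)ᶜ.Adj) (j : DecidableRel ((F k)ᶜ)ᶜ.Adj),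
      min (F k)ᶜ.minDegree ((F k)ᶜ)ᶜ.minDegree = 4 := by
    intro i j
    rw [minDegree_F k hk ((F k)ᶜ)ᶜ j (compl_compl _)]
    exact min_eq_right (minDegree_compl k hk (F k)ᶜ i rfl)
  exact h3 _ _

/-- For every `k ≥ 2` there is a connected graph `G` of order `n = 14 k` with `δ*(G) = 4`,
`γ_t(G) = 2` and `γ_t(Gᶜ) = 6 k = 3 n / 7`. -/
theorem result (k : ℕ) (hk : 2 ≤ k) :
    ∃ (V : Type) (_ : Fintype V) (G : SimpleGraph V), Fintype.card V = 14 * k ∧ G.Connected ∧
      deltaStar G = 4 ∧ totalDomNum G = 2 ∧ totalDomNum Gᶜ = 6 * k := by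
  refine ⟨VV k, inferInstance, (F k)ᶜ, card_VV k, connected_compl k hk, deltaStar_compl k hk,
    totalDomNum_compl k hk, ?_⟩
  rw [compl_compl]
  exact totalDomNum_F k

end Pool.Agent.Results.MP_4101c8_co.SevenSharp
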